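import Pool.Agent.helper70.BND.SpecH

/-!
# Row bh:PSL (MP_376aaf_an): one letter moves
-/

set_option autoImplicit false

open scoped Topology
open Finset

namespace Pool.Agent.BND.EX

theorem PSL_fw (l : Lv) (hl : IsLv l) (Φ : ℕ → ℝ → ℕ → Am) (e : ℕ) (he : e < l.N) (b : Bool) (t : ℝ)
    (ht : ∀ i, i < l.h e → Φ e t i = fw l.h Φ (vw (l.W e b)) i) (A R : List (ℕ × ℝ)) (i : ℕ) :
    fw l.h Φ (A ++ (e, t) :: R) i = fw l.h Φ (A ++ (vw (l.W e b) ++ R)) i := by
  have hh : hw l.h (vw (l.W e b)) = l.h e := by rw [hw_vw, hl.ht e he b]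
  rcases lt_or_ge i (hw l.h A) with h | h
  · rw [fw_append_left _ _ _ _ _ h, fw_append_left _ _ _ _ _ h]
  · rw [fw_append_right _ _ _ _ _ h, fw_append_right _ _ _ _ _ h]
    change (if i - hw l.h A < l.h e then Φ e t (i - hw l.h A) else fw l.h Φ R (i - hw l.h A - l.h e)) = _
    split_ifs with h1
    · rw [fw_append_left _ _ _ _ _ (by rw [hh]; exact h1)]
      exact ht _ h1
    · rw [fw_append_right _ _ _ _ _ (by rw [hh]; omega), hh]

theorem PSL_cts (l : Lv) (Φ : ℕ → ℝ → ℕ → Am) (hΦ : Cmp l Φ) (e : ℕ) (he : e < l.N) (g : ℝ → ℝ)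
    (hg : Continuous g) (hgU : ∀ s ∈ U, g s ∈ U) (A R : List (ℕ × ℝ)) (i : ℕ) :
    ContinuousOn (fun s => fw l.h Φ (A ++ (e, g s) :: R) i) U := by
  rcases lt_or_ge i (hw l.h A) with h | h
  · simp only [fw_append_left _ _ _ _ _ h]
    exact continuousOn_const
  · simp only [fw_append_right _ _ _ _ _ h]
    change ContinuousOn (fun s => if i - hw l.h A < l.h e then Φ e (g s) (i - hw l.h A) else
      fw l.h Φ R (i - hw l.h A - l.h e)) U
    by_cases h1 : i - hw l.h A < l.h e
    · simp only [h1, if_true]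
      exact (hΦ.cts e _ he h1).comp hg.continuousOn hgU
    · simp only [h1, if_false]
      exact continuousOn_const

theorem PSL_hw (l : Lv) (hl : IsLv l) (e : ℕ) (he : e < l.N) (b : Bool) (A R : List (ℕ × ℝ)) (t : ℝ) :
    hw l.h (A ++ (vw (l.W e b) ++ R)) = hw l.h (A ++ (e, t) :: R) := by
  rw [hw_append, hw_append, hw_append, hw_cons, hw_vw, hl.ht e he b]

theorem PSL_sw (l : Lv) (lam : ℕ → ℝ → ℂ) (e : ℕ) (b : Bool) (A R : List (ℕ × ℝ)) (t : ℝ) (z : ℂ)
    (h : lam e t = ((l.W e b).map fun v => lam v 0).sum + z) :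
    sw lam (A ++ (e, t) :: R) = sw lam (A ++ (vw (l.W e b) ++ R)) + z := by
  rw [sw_append, sw_append, sw_append, sw_cons, sw_vw, h]
  ring

theorem PSL_swc (l : Lv) (lam : ℕ → ℝ → ℂ) (e : ℕ) (hlam : ContinuousOn (lam e) U) (g : ℝ → ℝ)
    (hg : Continuous g) (hgU : ∀ s ∈ U, g s ∈ U) (A R : List (ℕ × ℝ)) :
    ContinuousOn (fun s => sw lam (A ++ (e, g s) :: R)) U := by
  simp only [sw_append, sw_cons]
  exact continuousOn_const.add ((hlam.comp hg.continuousOn hgU).add continuousOn_const)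

theorem PSL : PSL_stmt := by
  intro l Q A R e hl he hQ
  refine ⟨fun a ha => ⟨fun s => A ++ (e, (1 - s) * a) :: R, ?_⟩, ⟨fun s => A ++ (e, s) :: R, ?_⟩⟩
  · have hgU : ∀ s ∈ U, (1 - s) * a ∈ U := by
      intro s hs
      refine ⟨mul_nonneg (sub_nonneg.2 hs.2) ha.1, ?_⟩
      calc (1 - s) * a ≤ 1 * 1 := mul_le_mul (by linarith [hs.1]) ha.2 ha.1 zero_le_one
        _ = 1 := one_mul 1
    have hg : Continuous (fun s : ℝ => (1 - s) * a) := by fun_prop
    refine ⟨fun s hs => hQ _ (hgU s hs), fun s _ => ?_, PSL_hw l hl e he false A R a, ?_, ?_, ?_, ?_, ?_⟩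
    · rw [hw_append, hw_append, hw_cons, hw_cons]
    · intro Φ hΦ i _
      exact PSL_cts l Φ hΦ e he _ hg hgU A R i
    · intro Φ hΦ i _
      simp only [sub_zero, one_mul]
    · intro Φ hΦ i _
      simp only [sub_self, zero_mul]
      exact PSL_fw l hl Φ e he false 0 (fun i hi => hΦ.at0 e i he hi) A R i
    · rintro ⟨x1, x2⟩ ⟨hx, h0, h1⟩
      simp only at hx h0 h1
      subst hx
      rcases eq_or_lt_of_le ha.1 with h | h
      · refine ⟨0, ⟨le_rfl, zero_le_one⟩, ?_⟩
        have : x2 = 0 := le_antisymm (by rw [h]; exact h1) h0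
        rw [this, ← h]
        simp
      · refine ⟨1 - x2 / a, ⟨?_, ?_⟩, ?_⟩
        · rw [sub_nonneg, div_le_one h]
          exact h1
        · have : 0 ≤ x2 / a := div_nonneg h0 h.le
          linarith
        · have : (1 - (1 - x2 / a)) * a = x2 := by
            field_simp
            ring
          simp only [this]
          simp
    · intro lam nn hL
      refine ⟨fun s => sw lam (A ++ (e, (1 - s) * a) :: R), PSL_swc l lam e (hL.cts e he) _ hg hgU A R,
        fun s _ => rfl, by simp only [sub_zero, one_mul], ?_⟩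
      simp only [sub_self, zero_mul, Finset.sum_const_zero, Int.cast_zero, mul_zero]
      exact PSL_sw l lam e false A R 0 0 (by rw [hL.at0 e he, add_zero])
  · have hw0 : ∀ s, hw l.h (A ++ (e, s) :: R) = hw l.h (A ++ (vw (l.W e false) ++ R)) := fun s =>
      (PSL_hw l hl e he false A R s).symm
    refine ⟨fun s hs => hQ s hs, fun s _ => hw0 s, ?_, ?_, ?_, ?_, ?_, ?_⟩
    · rw [PSL_hw l hl e he true A R 0, hw0]
    · intro Φ hΦ i _
      exact PSL_cts l Φ hΦ e he (fun s => s) continuous_id (fun s hs => hs) A R i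
    · intro Φ hΦ i _
      exact PSL_fw l hl Φ e he false 0 (fun i hi => hΦ.at0 e i he hi) A R i
    · intro Φ hΦ i _
      exact PSL_fw l hl Φ e he true 1 (fun i hi => hΦ.at1 e i he hi) A R i
    · intro a ha
      exact absurd ha (Set.notMem_empty a)
    · intro lam nn hL
      refine ⟨fun s => sw lam (A ++ (e, s) :: R), PSL_swc l lam e (hL.cts e he) (fun s => s) continuous_id
        (fun s hs => hs) A R, fun s _ => rfl, ?_, ?_⟩
      · have := PSL_sw l lam e false A R 0 0 (by rw [hL.at0 e he, add_zero])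
        rw [add_zero] at this
        exact this
      · have h1 : (∑ e' ∈ range l.N, (Pi.single e (1 : ℤ) : ℕ → ℤ) e' * nn e') = nn e := by
          rw [Finset.sum_eq_single e]
          · rw [Pi.single_eq_same, one_mul]
          · intro b _ hb
            rw [Pi.single_eq_of_ne hb, zero_mul]
          · intro h
            exact absurd (Finset.mem_range.2 he) h
        rw [h1]
        exact PSL_sw l lam e true A R 1 _ (hL.at1 e he)

end Pool.Agent.BND.EX
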